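import Pool.Agent.R629.NF.Poly

/-!
# MP_bf9450_nt: the L-functions of rational elliptic curves over number fields modulo automorphic ones

Let `(E_i, K_i)`, `i ∈ I`, be a countable family of elliptic curves over `ℚ` and number fields, and let
`(Π_j)`, `j ∈ J`, be a countable family of automorphic representations of `GL_{m_j}` over number fields
`L_j` (for instance all algebraic cuspidal ones whose Satake parameters have absolute value at most
`q_v^w`), with `w ≥ 1/2`.  All these L-functions, without finitely many Euler factors, have boundary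
values `l_i(t)`, `l_j(t)` at almost all points of the line `Re s = 1 + w`.  The `l_i(t)` are, for almost
all `t`, algebraically independent over the field generated by countably many constants, all `l_j(t)`,
`t` and the `p^{-it}` if and only if no product of integral powers of the `L(E_i/K_i, s)`, except the
empty one, has at almost all primes the same Euler factors as a product of integral powers of the
`L(Π_j, s)`.
-/

set_option autoImplicit false

namespace Pool.Agent.Results.MP_bf9450_nt.IndependenceModuloAutomorphic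

open MeasureTheory NumberField IsDedekindDomain Polynomial
open Pool.Agent.R629.NF
open Pool.Agent.R629.SP
open Pool.Agent.TH339.MP (nm pr dg nm_eq dg_pos)

/-- The characteristic polynomial `(X - α_p^f)(X - β_p^f)` of Frobenius at the prime `v` of `K` above
`p` of degree `f`, for the elliptic curve over `ℚ` with the Frobenius eigenvalues `α_p`, `β_p` at
`p`. -/
noncomputable def curvePoly {K : Type} [Field K] [NumberField K] (α β : Nat.Primes → ℂ)
    (v : HeightOneSpectrum (𝓞 K)) : ℂ[X] :=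
  (X - C (α (pr v) ^ dg v)) * (X - C (β (pr v) ^ dg v))

lemma curve_sys {K : Type} [Field K] [NumberField K] {α β : Nat.Primes → ℂ} {S : Finset ℕ} {w : ℝ}
    (hw : 1 / 2 ≤ w) (hα : ∀ p : Nat.Primes, (p : ℕ) ∉ S → ‖α p‖ = ((p : ℕ) : ℝ) ^ (1 / 2 : ℝ))
    (hβ : ∀ p : Nat.Primes, (p : ℕ) ∉ S → ‖β p‖ = ((p : ℕ) : ℝ) ^ (1 / 2 : ℝ)) :
    IsSysLe S 2 w (curvePoly (K := K) α β) := by
  intro v hv
  have hm : (curvePoly α β v).Monic := (monic_X_sub_C _).mul (monic_X_sub_C _)
  have hnm : (1 : ℝ) ≤ ((nm v : ℕ) : ℝ) := by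
    rw [nm_eq]
    exact_mod_cast Nat.one_le_pow _ _ (pr v).2.pos
  have hone : ∀ x : ℂ, ‖x‖ = ((pr v : ℕ) : ℝ) ^ (1 / 2 : ℝ) →
      x ^ dg v ≠ 0 ∧ ‖x ^ dg v‖ ≤ ((nm v : ℕ) : ℝ) ^ w := by
    intro x hx
    have hp : (0 : ℝ) < ((pr v : ℕ) : ℝ) := by exact_mod_cast (pr v).2.pos
    refine ⟨pow_ne_zero _ fun h0 => ?_, ?_⟩
    · rw [h0, norm_zero] at hx
      exact (Real.rpow_pos_of_pos hp _).ne hx
    · rw [norm_pow, hx, ← nm_rpow]
      exact Real.rpow_le_rpow_of_exponent_le hnm hw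
  refine ⟨hm, ?_, fun z hz => ?_⟩
  · unfold curvePoly
    rw [(monic_X_sub_C _).natDegree_mul (monic_X_sub_C _), natDegree_X_sub_C, natDegree_X_sub_C]
  · rw [mem_roots hm.ne_zero] at hz
    unfold curvePoly at hz
    rw [IsRoot, eval_mul, mul_eq_zero] at hz
    rcases hz with h | h
    · rw [eval_sub, eval_X, eval_C, sub_eq_zero] at h
      rw [h]
      exact hone _ (hα _ hv)
    · rw [eval_sub, eval_X, eval_C, sub_eq_zero] at h
      rw [h]
      exact hone _ (hβ _ hv)

/-- **Independence modulo automorphic L-functions.** -/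
theorem result {I J : Type} [Countable I] [Countable J]
    (K : I → Type) [∀ i, Field (K i)] [∀ i, NumberField (K i)]
    (SI : I → Finset ℕ) (hSI : ∀ i, Unram (K i) (SI i)) (α β : I → Nat.Primes → ℂ)
    (hα : ∀ i (p : Nat.Primes), (p : ℕ) ∉ SI i → ‖α i p‖ = ((p : ℕ) : ℝ) ^ (1 / 2 : ℝ))
    (hβ : ∀ i (p : Nat.Primes), (p : ℕ) ∉ SI i → ‖β i p‖ = ((p : ℕ) : ℝ) ^ (1 / 2 : ℝ))
    (L : J → Type) [∀ j, Field (L j)] [∀ j, NumberField (L j)]
    (SJ : J → Finset ℕ) (hSJ : ∀ j, Unram (L j) (SJ j)) (m : J → ℕ) {w : ℝ} (hw : 1 / 2 ≤ w)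
    (Q : ∀ j, HeightOneSpectrum (𝓞 (L j)) → ℂ[X]) (hQ : ∀ j, IsSysLe (SJ j) (m j) w (Q j)) :
    ((∀ i, ∃ l : ℝ → ℂ, IsEdgeOf (SI i) 2 (curvePoly (K := K i) (α i) (β i)) w l) ∧
      ∀ j, ∃ l : ℝ → ℂ, IsEdgeOf (SJ j) (m j) (Q j) w l) ∧
    ∀ (l : I → ℝ → ℂ) (lQ : J → ℝ → ℂ),
      (∀ i, IsEdgeOf (SI i) 2 (curvePoly (K := K i) (α i) (β i)) w (l i)) →
      (∀ j, IsEdgeOf (SJ j) (m j) (Q j) w (lQ j)) →
      [NoRelP (fun i => above (curvePoly (K := K i) (α i) (β i))) (fun j => above (Q j)),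
        ∀ k : Subfield ℂ, (k : Set ℂ).Countable → ∀ᵐ t : ℝ, AlgebraicIndependent
          (IntermediateField.adjoin k (valSet (fun j => lQ j t) t)) fun i => l i t,
        ∀ k : Subfield ℂ, (k : Set ℂ).Countable → ¬ ∀ᵐ t : ℝ, ¬ AlgebraicIndependent
          (IntermediateField.adjoin k (valSet (fun j => lQ j t) t)) fun i => l i t].TFAE :=
  ⟨⟨fun i => exists_edgeOf_le (hSI i) (curve_sys hw (hα i) (hβ i)),
    fun j => exists_edgeOf_le (hSJ j) (hQ j)⟩, fun _ _ hl hlQ =>
    matroidK hSI hSJ (fun i => curve_sys hw (hα i) (hβ i)) hQ hl hlQ⟩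

end Pool.Agent.Results.MP_bf9450_nt.IndependenceModuloAutomorphic
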