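import Mathlib
import Pool.Agent.R362.BS.Perf

/-!
# No poles at `s = 1` over nonsolvable number fields, from the rationality of Mordell-Weil groups

Let `E` be an elliptic curve over `ℚ` and `F/ℚ` a finite totally real Galois extension with group
`G` such that `E` is automorphic over `F` (by potential automorphy every totally real field has
extensions of this kind). By solvable descent `E` is automorphic over the fixed fields `F^H` of the
SOLVABLE subgroups `H`, so that the functions `L(E/F^H, ψ, s)` are entire and the theorem of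
Gross-Zagier, Kolyvagin and Zhang gives the rank of `E` and of its quadratic twists over `F^H` if
the analytic rank is at most one. For the other number fields `M ⊆ F` (for nonsolvable `G`) the
functions `L(E/M, s)` are only known to be meromorphic. `LayerData ρ` lists these properties, near
`s = 1`, of the functions `L χ = L(E ⊗ χ, s)` (`χ` an irreducible character of `G`) and
`Lin H ψ = L(E/F^H, ψ, s)` (`ψ` a linear character of `H`) and of the representation `ρ` of `G` on
`V = E(F) ⊗ ℚ`.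

1. Let `T` be an elementary abelian `2`-subgroup of `G` such that `E` and its quadratic twists by the
   characters of `T` have analytic rank at most one over `F^T`. Then `L(E/F, s)` vanishes at `s = 1`
   to the order `r = rank E(F)`. If `T` is contained in the subgroup generated by the elements of
   some prime order `p > r + 1` (always true if `G` is generated by such elements, for example if
   `G` is simple of order divisible by `p`), then `r ≤ 1`, and for ALL subfields `M` of `F` and all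
   irreducible characters `χ` of `G` the functions `L(E/M, s)` and `L(E ⊗ χ, s)` are holomorphic at
   `s = 1`; the order of `L(E/M, s)` is `rank E(M) ≤ 1`, and `L(E ⊗ χ, 1) ≠ 0` if `χ(1) > 1`
   (for all `χ ≠ 1` if `G` is generated by elements of order `p`).
2. Let `a`, `b` be commuting involutions such that `E` has analytic rank at most one over the fields
   `F^a`, `F^b`, `F^{ab}`, of index two in `F`. Then `r ≤ 3`, and the conclusion holds if `a` and
   `b` are contained in the subgroup generated by the elements of some prime order `p ≥ 5`, for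
   example if `G` is a finite simple group.

The proof: the orders at `s = 1` form a class function `θ` on `G`, whose restriction to `T` is the
character of `V`, by the known cases of the conjecture of Birch and Swinnerton-Dyer. Elements of
prime order `p > dim V + 1` act trivially on the RATIONAL vector space `V`. So `θ` is constant on
`T`, and the multiplicity `r` of the trivial character of `T` in `θ` is at most one. Then `θ` is `0`
or a linear character of `G`, and it is determined by the orders over the solvable layers.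
-/

set_option autoImplicit false
set_option linter.unusedSectionVars false

namespace Pool.Agent.Results.MP_bf9450_nt.RationalMordellWeil

open Pool.Agent.H302R2 Pool.Agent.H541R3.ART Pool.Agent.R362.SH Pool.Agent.R362 Module Filter
  Topology

/-- The values `1, -1` of a sign character as complex numbers. -/
noncomputable def signChar {H : Type} [Group H] (η : H →* ℤˣ) : H →* ℂˣ :=
  (Units.map (Int.castRingHom ℂ).toMonoidHom).comp η

/-- The vectors `v` with `h v = η(h) v` for all `h` in the subgroup `H`; for `V = E(F) ⊗ ℚ` and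
`η = 1` this is `E(F^H) ⊗ ℚ`, and in general it is `E'(F^H) ⊗ ℚ` for the quadratic twist `E'` of
`E` by `η`. -/
def eigenspace {G : Type} [Group G] {V : Type} [AddCommGroup V] [Module ℚ V]
    (ρ : Representation ℚ G V) (H : Subgroup G) (η : H →* ℤˣ) : Submodule ℚ V where
  carrier := {v | ∀ h : H, ρ h v = ((η h : ℤ) : ℚ) • v}
  add_mem' := by
    intro a b ha hb h
    rw [map_add, ha h, hb h, smul_add]
  zero_mem' := by
    intro h
    rw [map_zero, smul_zero]
  smul_mem' := by
    intro c v hv h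
    rw [map_smul, hv h, smul_comm]

/-- Functions with the known properties near `s = 1` of the L-functions of an elliptic curve `E/ℚ`
which is automorphic over the Galois extension `F/ℚ` with group `G`, and the representation `ρ` of
`G` on `E(F) ⊗ ℚ`: `L χ` stands for `L(E ⊗ χ, s)`, `χ` an irreducible character of `G`, and
`Lin H ψ` for `L(E/F^H, ψ, s)`, `ψ` a linear character of the subgroup `H`. -/
structure LayerData {G : Type} [Group G] {V : Type} [AddCommGroup V] [Module ℚ V]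
    (ρ : Representation ℚ G V) where
  L : (G → ℂ) → ℂ → ℂ
  Lin : (H : Subgroup G) → (H →* ℂˣ) → ℂ → ℂ
  /-- meromorphic and not identically zero near `s = 1` -/
  mero : ∀ χ ∈ Irr G, MeromorphicAt (L χ) 1 ∧ meromorphicOrderAt (L χ) 1 ≠ ⊤
  /-- automorphy over the fixed fields of the SOLVABLE subgroups: no poles -/
  automorphic : ∀ H : Subgroup G, Group.IsSolvable H → ∀ ψ : H →* ℂˣ,
    0 ≤ meromorphicOrderAt (Lin H ψ) 1
  /-- induction: `Lin H ψ` is the product of the `L χ ^ ⟨χ|_H, ψ⟩` -/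
  induce : ∀ (H : Subgroup G) (ψ : H →* ℂˣ) (m : (G → ℂ) → ℕ),
    (∀ χ ∈ Irr G, ∑ᶠ h : H, χ h * (((ψ h)⁻¹ : ℂˣ) : ℂ) = (m χ : ℂ) * (Nat.card H : ℂ)) →
    Lin H ψ =ᶠ[𝓝[≠] 1] fun s => ∏ᶠ χ ∈ Irr G, L χ s ^ m χ
  /-- complex conjugation: `L(E ⊗ χ̄, s)` is the conjugate of `L(E ⊗ χ, s̄)` -/
  conj : ∀ χ ∈ Irr G, meromorphicOrderAt (L fun g => χ g⁻¹) 1 = meromorphicOrderAt (L χ) 1
  /-- the rank of the quadratic twists over the fixed fields of the SOLVABLE subgroups in the
  case of analytic rank `n ≤ 1` (Gross-Zagier, Kolyvagin, Zhang) -/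
  rank : ∀ H : Subgroup G, Group.IsSolvable H → ∀ (η : H →* ℤˣ) (n : ℕ), n ≤ 1 →
    meromorphicOrderAt (Lin H (signChar η)) 1 = ((n : ℤ) : WithTop ℤ) →
    finrank ℚ (eigenspace ρ H η) = n

section data

variable {G : Type} [Group G] [Finite G] {V : Type} [AddCommGroup V] [Module ℚ V]
  [FiniteDimensional ℚ V] {ρ : Representation ℚ G V}

/-- No poles at `s = 1`, and the equivariant Birch-Swinnerton-Dyer conjecture: `L(E ⊗ χ, s)`
vanishes to the order `⟨V ⊗ ℂ, χ⟩` for all irreducible `χ`; so `L(E/F^H, ψ, s)` vanishes to the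
order `⟨V ⊗ ℂ, ψ⟩` for all subgroups `H` and linear characters `ψ`, and `L(E/F^H, s)` to the order
`dim V^H`. -/
def LayerData.OrderIsRank (A : LayerData ρ) : Prop :=
  (∀ χ ∈ Irr G, ∃ n : ℕ, meromorphicOrderAt (A.L χ) 1 = ((n : ℤ) : WithTop ℤ) ∧
    ∑ᶠ g : G, ((ρ.character g : ℚ) : ℂ) * χ g⁻¹ = (n : ℂ) * (Nat.card G : ℂ)) ∧
  (∀ (H : Subgroup G) (ψ : H →* ℂˣ), ∃ n : ℕ,
    meromorphicOrderAt (A.Lin H ψ) 1 = ((n : ℤ) : WithTop ℤ) ∧
    ∑ᶠ h : H, ((ρ.character (h : G) : ℚ) : ℂ) * (((ψ h)⁻¹ : ℂˣ) : ℂ)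
      = (n : ℂ) * (Nat.card H : ℂ)) ∧
  (∀ H : Subgroup G, meromorphicOrderAt (A.Lin H 1) 1
    = ((finrank ℚ (eigenspace ρ H 1) : ℤ) : WithTop ℤ))

/-- the orders at `s = 1` -/
noncomputable def LayerData.ord (A : LayerData ρ) (χ : G → ℂ) : ℤ :=
  (meromorphicOrderAt (A.L χ) 1).untop₀

variable (A : LayerData ρ)

lemma LayerData.coe_ord {χ : G → ℂ} (hχ : χ ∈ Irr G) :
    (A.ord χ : WithTop ℤ) = meromorphicOrderAt (A.L χ) 1 :=
  WithTop.coe_untop₀_of_ne_top (A.mero χ hχ).2

lemma LayerData.order_Lin (H : Subgroup G) (ψ : H →* ℂˣ) (m : (G → ℂ) → ℕ)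
    (hm : ∀ χ ∈ Irr G, ∑ᶠ h : H, χ h * (((ψ h)⁻¹ : ℂˣ) : ℂ) = (m χ : ℂ) * (Nat.card H : ℂ)) :
    meromorphicOrderAt (A.Lin H ψ) 1 = ((∑ χ ∈ irrF G, (m χ : ℤ) * A.ord χ : ℤ) : WithTop ℤ) := by
  classical
  rw [meromorphicOrderAt_congr (A.induce H ψ m hm)]
  have h1 : (fun s => ∏ᶠ χ ∈ Irr G, A.L χ s ^ m χ)
      = fun s => ∏ χ ∈ irrF G, (A.L χ ^ m χ) s := by
    funext s
    rw [finprod_mem_eq_finite_toFinset_prod _ (irr_finite (G := G))]
    rfl
  rw [h1, meromorphicOrderAt_fun_prod (fun χ hχ => ((A.mero χ (mem_irrF.mp hχ)).1).pow _)]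
  rw [WithTop.coe_sum]
  refine Finset.sum_congr rfl fun χ hχ => ?_
  rw [meromorphicOrderAt_pow ((A.mero χ (mem_irrF.mp hχ)).1), ← A.coe_ord (mem_irrF.mp hχ)]
  push_cast
  rfl

/-- the order of `Lin H ψ` is the multiplicity of `ψ` in the class function of the orders -/
lemma LayerData.mult_Lin (H : Subgroup G) (ψ : H →* ℂˣ) : ∃ n : ℤ,
    ∑ᶠ h : H, theta A.ord h * (((ψ h)⁻¹ : ℂˣ) : ℂ) = (n : ℂ) * (Nat.card H : ℂ) ∧
      meromorphicOrderAt (A.Lin H ψ) 1 = (n : WithTop ℤ) := by
  choose! m hm using fun χ (hχ : χ ∈ Irr G) => exists_mult hχ H ψ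
  exact ⟨_, theta_mult A.ord H ψ m hm, A.order_Lin H ψ m hm⟩

lemma LayerData.eq_of_mult {H : Subgroup G} {ψ : H →* ℂˣ} {n : ℤ}
    (h : ∑ᶠ h : H, theta A.ord h * (((ψ h)⁻¹ : ℂˣ) : ℂ) = (n : ℂ) * (Nat.card H : ℂ)) :
    meromorphicOrderAt (A.Lin H ψ) 1 = (n : WithTop ℤ) := by
  obtain ⟨m, hm, ho⟩ := A.mult_Lin H ψ
  rw [ho]
  rw [hm] at h
  have hH : (Nat.card H : ℂ) ≠ 0 := by exact_mod_cast Nat.card_pos.ne'
  have h2 := mul_right_cancel₀ hH h
  have h3 : m = n := by exact_mod_cast h2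
  rw [h3]

lemma LayerData.mult_of_eq {H : Subgroup G} {ψ : H →* ℂˣ} {n : ℤ}
    (h : meromorphicOrderAt (A.Lin H ψ) 1 = (n : WithTop ℤ)) :
    ∑ᶠ h : H, theta A.ord h * (((ψ h)⁻¹ : ℂˣ) : ℂ) = (n : ℂ) * (Nat.card H : ℂ) := by
  obtain ⟨m, hm, ho⟩ := A.mult_Lin H ψ
  rw [hm]
  rw [ho] at h
  have h3 : m = n := by exact_mod_cast h
  rw [h3]

lemma LayerData.solv : IsSolvHeilbronn (theta A.ord : G → ℂ) where
  conj g h := by
    unfold theta
    exact Finset.sum_congr rfl fun χ hχ => by rw [Irr.conj (mem_irrF.mp hχ)]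
  int H ψ := by
    obtain ⟨n, hn, -⟩ := A.mult_Lin H ψ
    exact ⟨n, hn⟩
  mult H hH ψ := by
    obtain ⟨n, hn, ho⟩ := A.mult_Lin H ψ
    have h := A.automorphic H hH ψ
    rw [ho] at h
    have h0 : 0 ≤ n := by exact_mod_cast h
    obtain ⟨k, rfl⟩ := Int.eq_ofNat_of_zero_le h0
    exact ⟨k, by rw [hn]; simp⟩

lemma LayerData.real : IsRealF (theta A.ord : G → ℂ) := by
  classical
  intro g
  unfold theta
  refine Finset.sum_bij' (fun χ _ => fun g => χ g⁻¹) (fun χ _ => fun g => χ g⁻¹) ?_ ?_ ?_ ?_ ?_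
  · intro χ hχ
    exact mem_irrF.mpr (Pool.Agent.R362.irr_inv (mem_irrF.mp hχ))
  · intro χ hχ
    exact mem_irrF.mpr (Pool.Agent.R362.irr_inv (mem_irrF.mp hχ))
  · intro χ _
    funext g
    simp
  · intro χ _
    funext g
    simp
  · intro χ hχ
    have h1 := A.conj χ (mem_irrF.mp hχ)
    have h2 : A.ord (fun g => χ g⁻¹) = A.ord χ := by
      unfold LayerData.ord
      rw [h1]
    rw [h2]

lemma LayerData.theta_one {r : ℤ} (h : meromorphicOrderAt (A.Lin ⊥ 1) 1 = (r : WithTop ℤ)) :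
    (theta A.ord : G → ℂ) 1 = r := by
  have h1 := A.mult_of_eq h
  have : Fintype (⊥ : Subgroup G) := Fintype.ofFinite _
  rw [finsum_eq_sum_of_fintype, Fintype.sum_eq_single (1 : (⊥ : Subgroup G))] at h1
  · simpa using h1
  · intro x hx
    exact absurd (Subsingleton.elim x 1) hx

lemma LayerData.small : BS.Small (theta A.ord : G → ℂ) ρ := by
  intro H hH η n hn h
  refine A.rank H hH η n hn ?_
  refine A.eq_of_mult (ψ := signChar η) (n := (n : ℤ)) ?_
  rw [Int.cast_natCast, ← h]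
  rfl

/-- if the two class functions agree, the conjecture holds -/
lemma LayerData.bsd (h : ∀ g : G, (theta A.ord : G → ℂ) g = BS.chi ρ g) :
    A.OrderIsRank := by
  classical
  have hfun : (theta A.ord : G → ℂ) = BS.chi ρ := funext h
  have : Fintype G := Fintype.ofFinite G
  have hG : (Nat.card G : ℂ) ≠ 0 := by exact_mod_cast Nat.card_pos.ne'
  have hlin : ∀ (H : Subgroup G) (ψ : H →* ℂˣ), ∃ n : ℕ,
      meromorphicOrderAt (A.Lin H ψ) 1 = ((n : ℤ) : WithTop ℤ) ∧
      ∑ᶠ h : H, ((ρ.character (h : G) : ℚ) : ℂ) * (((ψ h)⁻¹ : ℂˣ) : ℂ)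
        = (n : ℂ) * (Nat.card H : ℂ) := by
    intro H ψ
    obtain ⟨n, hn⟩ := (BS.chi_heil ρ).mult H ψ
    refine ⟨n, ?_, hn⟩
    apply A.eq_of_mult
    rw [hfun, Int.cast_natCast]
    exact hn
  refine ⟨?_, hlin, ?_⟩
  · intro χ hχ
    have hp := theta_pair A.ord hχ
    rw [hfun] at hp
    have hnn : ∃ n : ℕ, ∑ g : G, BS.chi ρ g * χ g⁻¹ = (n : ℂ) * (Nat.card G : ℂ) := by
      obtain ⟨k, σ, hσ, rfl⟩ := hχ
      have : Invertible (Nat.card G : ℂ) := invertibleOfNonzero hG
      have h2 := Representation.card_inv_mul_sum_char_mul_char_eq_finrank σ (BS.cRep ρ)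
      refine ⟨finrank ℂ (σ.IntertwiningMap (BS.cRep ρ)), ?_⟩
      rw [← h2]
      field_simp
      refine Finset.sum_congr rfl fun g _ => ?_
      rw [BS.cRep_char]
    obtain ⟨n, hn⟩ := hnn
    refine ⟨n, ?_, ?_⟩
    · rw [← A.coe_ord hχ]
      have h3 : (A.ord χ : ℂ) = (n : ℂ) := mul_right_cancel₀ hG (by rw [← hp, hn])
      have h4 : A.ord χ = (n : ℤ) := by exact_mod_cast h3
      rw [h4]
    · rw [finsum_eq_sum_of_fintype]
      exact hn
  · intro H
    apply A.eq_of_mult
    rw [hfun, Int.cast_natCast]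
    have h3 := BS.eig_finrank ρ H 1
    have h4 : finrank ℚ (BS.eig ρ H 1) = finrank ℚ (eigenspace ρ H 1) := rfl
    rw [← h4, ← h3]
    refine finsum_congr fun x => ?_
    simp

end data

/-- The conclusion: `L(E/M, s)` and `L(E ⊗ χ, s)` are holomorphic at `s = 1` for all subfields `M`
of `F` and all irreducible characters `χ` of `G`, with the orders given by the representation `ρ` of
dimension at most one (`OrderIsRank`); `L(E ⊗ χ, 1)` is not zero if `χ(1) ≠ 1`. -/
def LayerData.Conclusion {G : Type} [Group G] [Finite G] {V : Type} [AddCommGroup V] [Module ℚ V]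
    [FiniteDimensional ℚ V] {ρ : Representation ℚ G V} (A : LayerData ρ) : Prop :=
  finrank ℚ V ≤ 1 ∧ A.OrderIsRank ∧ ∀ χ ∈ Irr G, χ 1 ≠ 1 → meromorphicOrderAt (A.L χ) 1 = 0

section concl

variable {G : Type} [Group G] [Finite G] {V : Type} [AddCommGroup V] [Module ℚ V]
  [FiniteDimensional ℚ V] {ρ : Representation ℚ G V} (A : LayerData ρ)

/-- in dimension at most one the character is zero or a linear character -/
lemma chi_low (hV : finrank ℚ V ≤ 1) :
    (∀ g : G, BS.chi ρ g = 0) ∨ ∃ l : G →* ℂˣ, ∀ g, BS.chi ρ g = ((l g : ℂˣ) : ℂ) := by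
  have h := BS.chi_heil ρ
  have h1 := BS.chi_one ρ
  rcases Nat.le_one_iff_eq_zero_or_eq_one.mp hV with h0 | h0
  · left
    intro g
    have h2 := h.norm_le g
    rw [h1, h0, Nat.cast_zero, Complex.zero_re] at h2
    exact norm_le_zero_iff.mp h2
  · right
    have h2 : IsSolvHeilbronn (BS.chi ρ) :=
      { conj := h.conj
        int := fun H ψ => by
          obtain ⟨n, hn⟩ := h.mult H ψ
          exact ⟨n, by rw [hn]; simp⟩
        mult := fun H _ ψ => h.mult H ψ }
    exact h2.toSol.deg_one (by rw [h1, h0]; simp)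

lemma LayerData.concl (hV : finrank ℚ V ≤ 1) (hth : (theta A.ord : G → ℂ) 1 = (finrank ℚ V : ℂ)) :
    A.Conclusion := by
  have hS := A.solv
  have hb := A.small
  have hbsd : A.OrderIsRank := by
    apply A.bsd
    rcases Nat.le_one_iff_eq_zero_or_eq_one.mp hV with h0 | h0
    · exact BS.eq_of_zero hS (by rw [hth, h0]; simp) hb
    · exact BS.eq_of_one hS (by rw [hth, h0]; simp) hb
  refine ⟨hV, hbsd, ?_⟩
  intro χ hχ hχ1
  obtain ⟨n, hn, hsum⟩ := hbsd.1 χ hχ
  have : Fintype G := Fintype.ofFinite G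
  have hG : (Nat.card G : ℂ) ≠ 0 := by exact_mod_cast Nat.card_pos.ne'
  have hz : ∑ g : G, BS.chi ρ g * χ g⁻¹ = 0 := by
    rcases chi_low (ρ := ρ) hV with h0 | ⟨l, hl⟩
    · exact Finset.sum_eq_zero fun g _ => by rw [h0, zero_mul]
    · have hlI := Pool.Agent.TH820.lin_irr l
      rw [Finset.sum_congr rfl fun g _ => by rw [hl g]]
      refine pair_ne hlI hχ ?_
      intro h2
      apply hχ1
      rw [← h2]
      simp
  rw [finsum_eq_sum_of_fintype] at hsum
  have h3 : (n : ℂ) * (Nat.card G : ℂ) = 0 := by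
    rw [← hsum]
    exact hz
  have h4 : n = 0 := by
    rcases mul_eq_zero.mp h3 with h5 | h5
    · exact_mod_cast h5
    · exact absurd h5 hG
  rw [hn, h4]
  rfl

end concl

/-- **Holomorphy at `s = 1` from the rationality of the Mordell-Weil group.** -/
theorem result (G : Type) [Group G] [Finite G] (V : Type) [AddCommGroup V] [Module ℚ V]
    [FiniteDimensional ℚ V] (ρ : Representation ℚ G V) (A : LayerData ρ) :
    -- (1) elementary abelian `2`-subgroups `T`
    (∀ T : Subgroup G, (∀ t ∈ T, t ^ 2 = 1) →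
      (∀ η : T →* ℤˣ, meromorphicOrderAt (A.Lin T (signChar η)) 1 ≤ ((1 : ℤ) : WithTop ℤ)) →
      (∀ H : Subgroup G, H ≤ T → ∀ η : H →* ℤˣ, meromorphicOrderAt (A.Lin H (signChar η)) 1
        = ((finrank ℚ (eigenspace ρ H η) : ℤ) : WithTop ℤ)) ∧
      meromorphicOrderAt (A.Lin ⊥ 1) 1 = ((finrank ℚ V : ℤ) : WithTop ℤ) ∧
      (∀ p : ℕ, p.Prime → finrank ℚ V + 1 < p → T ≤ Subgroup.closure {x : G | x ^ p = 1} →
        A.Conclusion ∧ (Subgroup.closure {x : G | x ^ p = 1} = ⊤ →
          ∀ χ ∈ Irr G, χ ≠ 1 → meromorphicOrderAt (A.L χ) 1 = 0))) ∧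
    -- (2) commuting involutions
    (∀ a b : G, a ^ 2 = 1 → b ^ 2 = 1 → a * b = b * a →
      (∀ c : G, (c = a ∨ c = b ∨ c = a * b) →
        meromorphicOrderAt (A.Lin (Subgroup.zpowers c) 1) 1 ≤ ((1 : ℤ) : WithTop ℤ)) →
      finrank ℚ V ≤ 3 ∧
      meromorphicOrderAt (A.Lin ⊥ 1) 1 = ((finrank ℚ V : ℤ) : WithTop ℤ) ∧
      (∀ p : ℕ, p.Prime → 5 ≤ p → a ∈ Subgroup.closure {x : G | x ^ p = 1} →
        b ∈ Subgroup.closure {x : G | x ^ p = 1} →
        A.Conclusion ∧ (Subgroup.closure {x : G | x ^ p = 1} = ⊤ →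
          ∀ χ ∈ Irr G, χ ≠ 1 → meromorphicOrderAt (A.L χ) 1 = 0))) := by
  classical
  have hS := A.solv
  have hb := A.small
  -- the order as a natural number
  have hmul : ∀ {T : Subgroup G} {η : T →* ℤˣ} {n : ℕ},
      ∑ᶠ t : T, (theta A.ord : G → ℂ) t * (((signToC.comp η t)⁻¹ : ℂˣ) : ℂ)
        = (n : ℂ) * (Nat.card T : ℂ) →
      meromorphicOrderAt (A.Lin T (signChar η)) 1 = ((n : ℤ) : WithTop ℤ) := by
    intro T η n h
    refine A.eq_of_mult (ψ := signChar η) (n := (n : ℤ)) ?_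
    rw [Int.cast_natCast, ← h]
    rfl
  -- the core of both parts
  have core : ∀ T : Subgroup G, (∀ t ∈ T, t ^ 2 = 1) →
      (∀ (η : T →* ℤˣ) (n : ℕ),
        ∑ᶠ t : T, (theta A.ord : G → ℂ) t * (((signToC.comp η t)⁻¹ : ℂˣ) : ℂ)
          = (n : ℂ) * (Nat.card T : ℂ) → n ≤ 1) →
      (∀ H : Subgroup G, H ≤ T → ∀ η : H →* ℤˣ, meromorphicOrderAt (A.Lin H (signChar η)) 1
        = ((finrank ℚ (eigenspace ρ H η) : ℤ) : WithTop ℤ)) ∧
      (theta A.ord : G → ℂ) 1 = (finrank ℚ V : ℂ) ∧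
      meromorphicOrderAt (A.Lin ⊥ 1) 1 = ((finrank ℚ V : ℤ) : WithTop ℤ) ∧
      (∀ p : ℕ, p.Prime → finrank ℚ V + 1 < p → T ≤ Subgroup.closure {x : G | x ^ p = 1} →
        A.Conclusion ∧ (Subgroup.closure {x : G | x ^ p = 1} = ⊤ →
          ∀ χ ∈ Irr G, χ ≠ 1 → meromorphicOrderAt (A.L χ) 1 = 0)) := by
    intro T hT h1
    obtain ⟨heq, -⟩ := BS.eq_on_el hS hb hT h1
    have hone : (theta A.ord : G → ℂ) 1 = (finrank ℚ V : ℂ) := by
      rw [heq 1 T.one_mem, BS.chi_one]
    refine ⟨?_, hone, ?_, ?_⟩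
    · intro H hH η
      apply hmul
      have h2 := BS.eig_finrank ρ H η
      have h3 : finrank ℚ (BS.eig ρ H η) = finrank ℚ (eigenspace ρ H η) := rfl
      rw [← h3, ← h2]
      refine finsum_congr fun x => ?_
      rw [heq x (hH x.2)]
    · apply A.eq_of_mult
      rw [Int.cast_natCast, BS.sum_bot (fun g => (theta A.ord : G → ℂ) g) 1, hone]
    · intro p hp hVp hTp
      have hle : finrank ℚ V ≤ 1 := BS.le_one_of_trivial hS hb hT h1
        (fun t ht => BS.trivial_of_closure hp hVp (hTp ht))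
      have hc := A.concl hle hone
      refine ⟨hc, ?_⟩
      intro htop χ hχ hχ1
      obtain ⟨n, hn, hsum⟩ := hc.2.1.1 χ hχ
      have : Fintype G := Fintype.ofFinite G
      have hG : (Nat.card G : ℂ) ≠ 0 := by exact_mod_cast Nat.card_pos.ne'
      have hchi : ∀ g : G, BS.chi ρ g = (finrank ℚ V : ℂ) := by
        intro g
        have h2 : ρ g = 1 := BS.trivial_of_closure hp hVp (by rw [htop]; exact Subgroup.mem_top g)
        unfold BS.chi Representation.character
        rw [h2, LinearMap.trace_one]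
        simp
      have hz : ∑ g : G, BS.chi ρ g * χ g⁻¹ = 0 := by
        have h1I := Pool.Agent.TH820.lin_irr (1 : G →* ℂˣ)
        have h2 := pair_ne h1I hχ (by
          intro h3
          apply hχ1
          rw [← h3]
          funext g
          simp)
        simp only [MonoidHom.one_apply, Units.val_one, one_mul] at h2
        rw [Finset.sum_congr rfl fun g _ => by rw [hchi g], ← Finset.mul_sum, h2, mul_zero]
      rw [finsum_eq_sum_of_fintype] at hsum
      have h3 : (n : ℂ) * (Nat.card G : ℂ) = 0 := by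
        rw [← hsum]
        exact hz
      have h4 : n = 0 := by
        rcases mul_eq_zero.mp h3 with h5 | h5
        · exact_mod_cast h5
        · exact absurd h5 hG
      rw [hn, h4]
      rfl
  refine ⟨?_, ?_⟩
  · intro T hT hη
    have h := core T hT (by
      intro η n hn
      have h2 := hη η
      rw [hmul hn] at h2
      have h3 : (n : ℤ) ≤ 1 := WithTop.coe_le_coe.mp h2
      exact_mod_cast h3)
    exact ⟨h.1, h.2.2.1, h.2.2.2⟩
  · intro a b ha hb' hab hord
    have hT : ∀ c : G, (c = a ∨ c = b ∨ c = a * b) → ∃ n : ℕ, n ≤ 1 ∧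
        ∑ᶠ h : Subgroup.zpowers c, (theta A.ord : G → ℂ) h
          = (n : ℂ) * (Nat.card (Subgroup.zpowers c) : ℂ) := by
      intro c hc
      have hCs : Group.IsSolvable (Subgroup.zpowers c) :=
        Group.isSolvable_of_comm (zpowers_comm c)
      obtain ⟨n, hn⟩ := hS.mult (Subgroup.zpowers c) hCs 1
      have h2 : meromorphicOrderAt (A.Lin (Subgroup.zpowers c) 1) 1 = ((n : ℤ) : WithTop ℤ) :=
        A.eq_of_mult (n := (n : ℤ)) (by rw [hn]; simp)
      have h3 := hord c hc
      rw [h2] at h3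
      have h4 : (n : ℤ) ≤ 1 := WithTop.coe_le_coe.mp h3
      refine ⟨n, by exact_mod_cast h4, ?_⟩
      rw [← hn]
      refine finsum_congr fun x => ?_
      simp
    obtain ⟨hT2, hmult, h3⟩ := BS.four hS ha hb' hab hT
    have h := core _ hT2 hmult
    have hV3 := h3 _ h.2.1
    refine ⟨hV3, h.2.2.1, ?_⟩
    intro p hp hp5 hap hbp
    refine h.2.2.2 p hp (by omega) ?_
    rw [Subgroup.closure_le]
    rintro y (rfl | hy)
    · exact hap
    · rw [Set.mem_singleton_iff] at hy
      rw [hy]; exact hbp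

end Pool.Agent.Results.MP_bf9450_nt.RationalMordellWeil
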