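import Pool.Agent.R791.CurveNF2

/-!
# The leading-term formula over number fields as a limit of finite sums of point counts

Let `K` be a number field and `E : y² = x³ + a x + b`, `a, b ∈ 𝓞_K`; `v` runs over the primes of `K` that do not
divide `6(4a³+27b²)`, `a_v = Nv + 1 - #E(k_v)` and `t_v(k) = α^k + β^k` for `T² - a_v T + Nv = (T - α)(T - β)`, so
that `#E(k_{v,k}) = Nv^k + 1 - t_v(k)` for the extension `k_{v,k}` of degree `k`. Let `L(E/K, s)` be the Euler product
over these `v`, `Re s > 3/2`. For `1 < ρ < ρ'` let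

`w_ρ(u) = (2π)⁻¹ ∫ Re (exp (z - u z^(1/ρ)) / z) dt`, `z = 1 + it`, and
`T_ρ(Y) = ∑_{Nv^k ≤ exp((log Y)^ρ')} w_ρ(k log Nv / log Y) t_v(k) / (k Nv^k)`,

a FINITE sum. For every such curve over every number field, every integer `r ≥ 0` and every `A > 0` it is proved, where
NOTHING is assumed about the continuation of `L(E/K, s)`, that the following are equivalent:

* `T_ρ(Y) + r log log Y → log A - r γ/ρ` for all `1 < ρ < ρ'`;
* `L(E/K, s)` has a holomorphic continuation without zeros to `Re s > 1`, and `L(E/K, s)/(s-1)^r → A` as `s → 1` in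
  the sectors `|arg (s-1)| < π/(2ρ)`, `ρ > 1`.

If `L(E/K, s)` has an entire continuation `F`, this is also equivalent to

* `F` has no zeros with `Re s > 1`, `ord_{s=1} F = r` and `F^{(r)}(1)/r! = A`.

With `r` the rank and `A` the number predicted by Birch and Swinnerton-Dyer (times the removed Euler factors), this
is the rank form and the leading-term formula together with the Riemann hypothesis; the whole statement is turned
into the convergence of finite sums of point counts, for all number fields, in particular those over which no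
continuation is known. More generally a single `ρ₀ ≥ 1` and all `ρ > ρ₀` see exactly the sector
`|arg (s-1)| < π/(2ρ₀)`. For the sharp cut-off the corresponding statement is false or unknown: there convergence
is stronger than the Riemann hypothesis.
-/

set_option autoImplicit false

namespace Pool.Agent.Results.MP_bf9450_nt.SectorLimitFormula

open Filter Topology Complex NumberField IsDedekindDomain
open Pool.Agent.TH942.ES Pool.Agent.R791.SectGen Pool.Agent.R791.CurveNF

/-- The sector `|arg (s-1)| < π/(2ρ)`, `s ≠ 1`. -/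
def Sector (ρ : ℝ) : Set ℂ := {s | s ≠ 1 ∧ |(s - 1).arg| < Real.pi / (2 * ρ)}

/-- **The leading-term formula over number fields by finite sums of point counts.** -/
theorem result {K : Type} [Field K] [NumberField K] (a b : 𝓞 K) (r : ℕ) (A : ℝ) (hA : 0 < A) :
    (∀ ρ₀ : ℝ, 1 ≤ ρ₀ →
      ((∀ ρ ρ' : ℝ, ρ₀ < ρ → ρ < ρ' →
        Tendsto (fun Y : ℝ => sumPow a b ρ ρ' Y + r * Real.log (Real.log Y)) atTop
          (𝓝 (Real.log A - r * Real.eulerMascheroniConstant / ρ))) ↔
      ∃ G : ℂ → ℂ,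
        (∀ s : ℂ, s ∈ Sector ρ₀ ∨ 3 / 2 < s.re → DifferentiableAt ℂ G s ∧ G s ≠ 0) ∧
        (∀ s : ℂ, 3 / 2 < s.re → G s = LSeries a b s) ∧
        ∀ ρ : ℝ, ρ₀ < ρ → Tendsto (fun s => G s / (s - 1) ^ r) (𝓝[Sector ρ] 1) (𝓝 (A : ℂ)))) ∧
    (∀ s : ℂ, s ∈ Sector 1 ↔ 1 < s.re) ∧
    ∀ F : ℂ → ℂ, Differentiable ℂ F → (∀ s : ℂ, 3 / 2 < s.re → F s = LSeries a b s) →
      ((∀ ρ ρ' : ℝ, 1 < ρ → ρ < ρ' →
        Tendsto (fun Y : ℝ => sumPow a b ρ ρ' Y + r * Real.log (Real.log Y)) atTop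
          (𝓝 (Real.log A - r * Real.eulerMascheroniConstant / ρ))) ↔
      (∀ s : ℂ, 1 < s.re → F s ≠ 0) ∧ analyticOrderAt F 1 = r ∧
        iteratedDeriv r F 1 / (r.factorial : ℂ) = A) := by
  have E := curve_sys a b
  have hreal : ∀ (v : {v // GoodV a b v}) k, (∑ i, zv (fun v : {v // GoodV a b v} =>
      Pool.Agent.H921R2.TatePole.nm v.1) (alV a b) v i ^ k).im = 0 := fun v k => by
    rw [zv_pow, Complex.ofReal_im]
  have hS : ∀ ρ, Sector ρ = SectorAt 1 ρ := fun ρ => by
    unfold Sector SectorAt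
    simp only [Complex.ofReal_one]
  have h32 : ∀ s : ℂ, (1 : ℝ) + 1 / 2 < s.re ↔ 3 / 2 < s.re := fun s => by norm_num
  have hL : ∀ s : ℂ, LE (fun v : {v // GoodV a b v} => Pool.Agent.H921R2.TatePole.nm v.1)
      (alV a b) (s - (1 : ℝ)) = LSeries a b s := fun s => by
    rw [Complex.ofReal_one, LE_eq]
  have hstar : ∀ ρ₀ : ℝ, 1 ≤ ρ₀ →
      ((∀ ρ ρ' : ℝ, ρ₀ < ρ → ρ < ρ' →
        Tendsto (fun Y : ℝ => sumPow a b ρ ρ' Y + r * Real.log (Real.log Y)) atTop
          (𝓝 (Real.log A - r * Real.eulerMascheroniConstant / ρ))) ↔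
      ∃ G : ℂ → ℂ,
        (∀ s : ℂ, s ∈ SectorAt 1 ρ₀ ∨ (1 : ℝ) + 1 / 2 < s.re →
          DifferentiableAt ℂ G s ∧ G s ≠ 0) ∧
        (∀ s : ℂ, (1 : ℝ) + 1 / 2 < s.re → G s = LE (fun v : {v // GoodV a b v} =>
          Pool.Agent.H921R2.TatePole.nm v.1) (alV a b) (s - (1 : ℝ))) ∧
        ∀ ρ : ℝ, ρ₀ < ρ → Tendsto (fun s => G s / (s - (1 : ℝ)) ^ r) (𝓝[SectorAt 1 ρ] ((1 : ℝ) : ℂ))
          (𝓝 (A : ℂ))) := by
    intro ρ₀ h
    rw [← star_iff E hreal 1 h r hA]
    simp only [sumPow_eq]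
  refine ⟨fun ρ₀ h => ?_, fun s => ?_, fun F hF he => ?_⟩
  · rw [hstar ρ₀ h]
    simp only [h32, hS, Complex.ofReal_one, LE_eq]
  · rw [hS, mem_sectorAt_one]
  · rw [hstar 1 le_rfl, entire_star E 1 hF (fun s hs => by rw [hL]; exact he s ((h32 s).1 hs)) r hA]
    simp only [Complex.ofReal_one]

end Pool.Agent.Results.MP_bf9450_nt.SectorLimitFormula
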