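import Mathlib
import Pool.Agent.R362.EV.Main

/-!
# Symplectic root numbers and the behaviour of Hasse-Weil L-functions at `s = 1`

Let `E` be an elliptic curve over `ℚ` and `F/ℚ` a finite Galois extension with group `G` such that
`E` is automorphic over `F`, for example `F` totally real (base change) or a totally real extension
of a given totally real field. `G` is not solvable in general. By solvable descent (Langlands) `E`
is automorphic over the fixed fields `F^T` of the SOLVABLE subgroups `T` of `G`, so that the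
functions `L(E/F^T, ψ, s)` are entire. For the other intermediate fields `M`, and for the twists
`L(E ⊗ χ, s)` by irreducible characters `χ` of `G`, only meromorphy is known.

Let `M ⊂ M'` be intermediate fields, `M' = F^T` with `T` solvable and quadratic over `M`, let `x` be
an element of `Gal(F/M)` outside `T`, and let `ψ` be a linear character of `T` with
`ψ(x t x⁻¹) = ψ(t)⁻¹` and `ψ(x²) = -1`. The character of `Gal(F/M)` induced from `ψ` is symplectic,
and so is the Galois representation of `E`; hence the root number of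
`L(E/M', ψ, s) = L(E/M ⊗ Ind ψ, s)` is `+1` (Deligne, Rohrlich), and by the functional equation this
function vanishes to even order at `s = 1`.

`SymplecticData G` lists these properties, near `s = 1`, of the functions `L χ = L(E ⊗ χ, s)` (`χ` an
irreducible character of `G`) and `Lin H ψ = L(E/F^H, ψ, s)` (`ψ` a linear character of `H`). We show,
for every finite group `G`: if the order of `L(E/F, s)` at `s = 1` is at most two, then `L(E/M, s)`
has no pole at `s = 1` for all subfields `M` of `F`, `L(E ⊗ χ, s)` has no pole at `s = 1` for all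
irreducible characters `χ` of `G`, and `L(E ⊗ χ, 1) ≠ 0` unless `χ(1) ≤ 2` and `χ` is trivial on the
second derived subgroup `G''`. The order of `L(E/M, s)` is the order over the subfield `M ∩ F^{G''}`;
if `G` is perfect, it is the same for all subfields.

The proof: the orders form a class function `θ` on `G` of degree two. Its restriction to the kernel
of the determinant is a sum of two linear characters: on a Sylow two-subgroup, because a quaternion
constituent would be symplectic of odd multiplicity; transfer and the theory of functions of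
this kind on groups of odd order then give a normal subgroup `K` with metabelian quotient on which
`θ` is two; so `θ` is a character, and it cannot be irreducible, because it would be induced from a
character `ψ` as above. So `θ` is two on `G''`, and the characters of `G / G''` are monomial.
-/

set_option autoImplicit false
set_option linter.unusedSectionVars false

namespace Pool.Agent.Results.MP_bf9450_nt.SymplecticRootNumbers

open Pool.Agent.H302R2 Pool.Agent.H541R3.ART Pool.Agent.R362.SH Pool.Agent.R362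
  Pool.Agent.W446.AS Filter Topology

/-- Functions with the known properties near `s = 1` of the L-functions of an elliptic curve `E/ℚ`
which is automorphic over the Galois extension `F/ℚ` with group `G`: `L χ` stands for
`L(E ⊗ χ, s)`, `χ` an irreducible character of `G`, and `Lin H ψ` for `L(E/F^H, ψ, s)`, `ψ` a linear
character of the subgroup `H`. -/
structure SymplecticData (G : Type) [Group G] where
  L : (G → ℂ) → ℂ → ℂ
  Lin : (H : Subgroup G) → (H →* ℂˣ) → ℂ → ℂ
  /-- meromorphic and not identically zero near `s = 1` -/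
  mero : ∀ χ ∈ Irr G, MeromorphicAt (L χ) 1 ∧ meromorphicOrderAt (L χ) 1 ≠ ⊤
  /-- automorphy over the fixed fields of the SOLVABLE subgroups: no poles -/
  automorphic : ∀ H : Subgroup G, Group.IsSolvable H → ∀ ψ : H →* ℂˣ,
    0 ≤ meromorphicOrderAt (Lin H ψ) 1
  /-- induction: `Lin H ψ` is the product of the `L χ ^ ⟨χ|_H, ψ⟩` -/
  induce : ∀ (H : Subgroup G) (ψ : H →* ℂˣ) (m : (G → ℂ) → ℕ),
    (∀ χ ∈ Irr G, ∑ᶠ h : H, χ h * (((ψ h)⁻¹ : ℂˣ) : ℂ) = (m χ : ℂ) * (Nat.card H : ℂ)) →
    Lin H ψ =ᶠ[𝓝[≠] 1] fun s => ∏ᶠ χ ∈ Irr G, L χ s ^ m χ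
  /-- the functional equation with root number `+1` for symplectic characters: `T` is a SOLVABLE
  subgroup, `x` an element outside `T` with `x T x⁻¹ = T`, `x² ∈ T`, and the character induced
  from `ψ` to `T ∪ x T` is symplectic; the order at `s = 1` is even -/
  symplectic : ∀ T : Subgroup G, Group.IsSolvable T → ∀ (x : G) (hx : ∀ t ∈ T, x * t * x⁻¹ ∈ T)
    (hxx : x * x ∈ T) (ψ : T →* ℂˣ), (∀ t : T, ψ ⟨x * t * x⁻¹, hx t t.2⟩ = (ψ t)⁻¹) →
    ψ ⟨x * x, hxx⟩ = -1 →
    ∀ n : ℤ, meromorphicOrderAt (Lin T ψ) 1 = (n : WithTop ℤ) → Even n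

section data

variable {G : Type} [Group G] [Finite G]

/-- the orders at `s = 1` -/
noncomputable def SymplecticData.ord (A : SymplecticData G) (χ : G → ℂ) : ℤ :=
  (meromorphicOrderAt (A.L χ) 1).untop₀

variable (A : SymplecticData G)

lemma SymplecticData.coe_ord {χ : G → ℂ} (hχ : χ ∈ Irr G) :
    (A.ord χ : WithTop ℤ) = meromorphicOrderAt (A.L χ) 1 :=
  WithTop.coe_untop₀_of_ne_top (A.mero χ hχ).2

lemma SymplecticData.order_Lin (H : Subgroup G) (ψ : H →* ℂˣ) (m : (G → ℂ) → ℕ)
    (hm : ∀ χ ∈ Irr G, ∑ᶠ h : H, χ h * (((ψ h)⁻¹ : ℂˣ) : ℂ) = (m χ : ℂ) * (Nat.card H : ℂ)) :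
    meromorphicOrderAt (A.Lin H ψ) 1 = ((∑ χ ∈ irrF G, (m χ : ℤ) * A.ord χ : ℤ) : WithTop ℤ) := by
  classical
  rw [meromorphicOrderAt_congr (A.induce H ψ m hm)]
  have h1 : (fun s => ∏ᶠ χ ∈ Irr G, A.L χ s ^ m χ)
      = fun s => ∏ χ ∈ irrF G, (A.L χ ^ m χ) s := by
    funext s
    rw [finprod_mem_eq_finite_toFinset_prod _ (irr_finite (G := G))]
    rfl
  rw [h1, meromorphicOrderAt_fun_prod (fun χ hχ => ((A.mero χ (mem_irrF.mp hχ)).1).pow _)]
  rw [WithTop.coe_sum]
  refine Finset.sum_congr rfl fun χ hχ => ?_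
  rw [meromorphicOrderAt_pow ((A.mero χ (mem_irrF.mp hχ)).1), ← A.coe_ord (mem_irrF.mp hχ)]
  push_cast
  rfl

/-- the order of `Lin H ψ` is the multiplicity of `ψ` in the class function of the orders -/
lemma SymplecticData.mult_Lin (H : Subgroup G) (ψ : H →* ℂˣ) : ∃ n : ℤ,
    ∑ᶠ h : H, theta A.ord h * (((ψ h)⁻¹ : ℂˣ) : ℂ) = (n : ℂ) * (Nat.card H : ℂ) ∧
      meromorphicOrderAt (A.Lin H ψ) 1 = (n : WithTop ℤ) := by
  choose! m hm using fun χ (hχ : χ ∈ Irr G) => exists_mult hχ H ψ
  exact ⟨_, theta_mult A.ord H ψ m hm, A.order_Lin H ψ m hm⟩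

lemma SymplecticData.eq_of_mult {H : Subgroup G} {ψ : H →* ℂˣ} {n : ℤ}
    (h : ∑ᶠ h : H, theta A.ord h * (((ψ h)⁻¹ : ℂˣ) : ℂ) = (n : ℂ) * (Nat.card H : ℂ)) :
    meromorphicOrderAt (A.Lin H ψ) 1 = (n : WithTop ℤ) := by
  obtain ⟨m, hm, ho⟩ := A.mult_Lin H ψ
  rw [ho]
  rw [hm] at h
  have hH : (Nat.card H : ℂ) ≠ 0 := by exact_mod_cast Nat.card_pos.ne'
  have h2 := mul_right_cancel₀ hH h
  have h3 : m = n := by exact_mod_cast h2
  rw [h3]

lemma SymplecticData.mult_of_eq {H : Subgroup G} {ψ : H →* ℂˣ} {n : ℤ}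
    (h : meromorphicOrderAt (A.Lin H ψ) 1 = (n : WithTop ℤ)) :
    ∑ᶠ h : H, theta A.ord h * (((ψ h)⁻¹ : ℂˣ) : ℂ) = (n : ℂ) * (Nat.card H : ℂ) := by
  obtain ⟨m, hm, ho⟩ := A.mult_Lin H ψ
  rw [hm]
  rw [ho] at h
  have h3 : m = n := by exact_mod_cast h
  rw [h3]

lemma SymplecticData.solv : IsSolvHeilbronn (theta A.ord : G → ℂ) where
  conj g h := by
    unfold theta
    exact Finset.sum_congr rfl fun χ hχ => by rw [Irr.conj (mem_irrF.mp hχ)]
  int H ψ := by
    obtain ⟨n, hn, -⟩ := A.mult_Lin H ψ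
    exact ⟨n, hn⟩
  mult H hH ψ := by
    obtain ⟨n, hn, ho⟩ := A.mult_Lin H ψ
    have h := A.automorphic H hH ψ
    rw [ho] at h
    have h0 : 0 ≤ n := by exact_mod_cast h
    obtain ⟨k, rfl⟩ := Int.eq_ofNat_of_zero_le h0
    exact ⟨k, by rw [hn]; simp⟩

lemma SymplecticData.theta_one {r : ℤ} (h : meromorphicOrderAt (A.Lin ⊥ 1) 1 = (r : WithTop ℤ)) :
    (theta A.ord : G → ℂ) 1 = r := by
  have h1 := A.mult_of_eq h
  have : Fintype (⊥ : Subgroup G) := Fintype.ofFinite _
  rw [finsum_eq_sum_of_fintype, Fintype.sum_eq_single (1 : (⊥ : Subgroup G))] at h1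
  · simpa using h1
  · intro x hx
    exact absurd (Subsingleton.elim x 1) hx

lemma SymplecticData.ev : EV.Ev (theta A.ord : G → ℂ) := by
  intro T hT x hx hxx ψ h1 h2 n hn
  have h3 := A.symplectic T hT x hx hxx ψ h1 h2 (n : ℤ) (A.eq_of_mult (by
    rw [Int.cast_natCast]; exact hn))
  exact_mod_cast h3

lemma SymplecticData.ord_of_pr {χ : G → ℂ} (hχ : χ ∈ Irr G) {n : ℕ}
    (h : pr (theta A.ord : G → ℂ) χ = n) :
    meromorphicOrderAt (A.L χ) 1 = ((n : ℤ) : WithTop ℤ) := by
  classical
  have : Fintype G := Fintype.ofFinite G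
  have h1 := theta_pair A.ord hχ
  rw [sum_eq_pr, h] at h1
  have h2 := mul_right_cancel₀ (card_ne (G := G)) h1
  rw [← A.coe_ord hχ]
  have h3 : A.ord χ = (n : ℤ) := by exact_mod_cast h2.symm
  rw [h3]

end data

section cosets

variable {G : Type} [Group G] [Finite G]

/-- multiplicities of the trivial character of a function which is constant on the cosets of `N` -/
lemma mult_sup {θ : G → ℂ} (N : Subgroup G) [N.Normal] (hc : ∀ g, ∀ n ∈ N, θ (g * n) = θ g)
    (H : Subgroup G) {n : ℂ} (hn : ∑ᶠ h : H, θ h = n * (Nat.card H : ℂ)) :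
    ∑ᶠ h : (H ⊔ N : Subgroup G), θ h = n * (Nat.card (H ⊔ N : Subgroup G) : ℂ) := by
  classical
  -- averages over the image
  have key : ∀ U : Subgroup G, (Nat.card (U.map (QuotientGroup.mk' N)) : ℂ) * ∑ᶠ h : U, θ h
      = (Nat.card U : ℂ) * ∑ᶠ y : U.map (QuotientGroup.mk' N), descend N θ y := by
    intro U
    have hf1 : Fintype U := Fintype.ofFinite _
    have hf2 : Fintype (U.map (QuotientGroup.mk' N)) := Fintype.ofFinite _
    let f : U →* U.map (QuotientGroup.mk' N) := (QuotientGroup.mk' N).subgroupMap U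
    have hf : Function.Surjective f := (QuotientGroup.mk' N).subgroupMap_surjective U
    have h1 := sum_comp_surj f hf (fun y => descend N θ y)
    have h2 : ∀ u : U, descend N θ (f u : G ⧸ N) = θ u := fun u => descend_mk hc (u : G)
    rw [Finset.sum_congr rfl fun u _ => h2 u] at h1
    have h3 : Nat.card U = Nat.card f.ker * Nat.card (U.map (QuotientGroup.mk' N)) :=
      Pool.Agent.H302R5.card_eq_ker_mul hf
    rw [finsum_eq_sum_of_fintype, finsum_eq_sum_of_fintype, h1, h3]
    push_cast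
    ring
  have himg : (H ⊔ N).map (QuotientGroup.mk' N) = H.map (QuotientGroup.mk' N) := by
    rw [Subgroup.map_sup]
    have h1 : N.map (QuotientGroup.mk' N) = ⊥ := by
      rw [eq_bot_iff]
      rintro _ ⟨x, hx, rfl⟩
      exact Subgroup.mem_bot.mpr ((QuotientGroup.eq_one_iff x).mpr hx)
    rw [h1, sup_bot_eq]
  have k1 := key H
  have k2 := key (H ⊔ N)
  rw [himg] at k2
  have c1 : (Nat.card H : ℂ) ≠ 0 := card_ne
  have c2 : (Nat.card (H.map (QuotientGroup.mk' N)) : ℂ) ≠ 0 := card_ne
  rw [hn] at k1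
  have h4 : ∑ᶠ y : H.map (QuotientGroup.mk' N), descend N θ y
      = n * (Nat.card (H.map (QuotientGroup.mk' N)) : ℂ) := by
    apply mul_left_cancel₀ c1
    rw [← k1]
    ring
  rw [h4] at k2
  apply mul_left_cancel₀ c2
  rw [k2]
  ring

end cosets

/-- **Central order at most two.** -/
theorem result (G : Type) [Group G] [Finite G] (A : SymplecticData G) (r : ℕ) (hr : r ≤ 2)
    (h : meromorphicOrderAt (A.Lin ⊥ 1) 1 = ((r : ℤ) : WithTop ℤ)) :
    -- no poles for the twists by the irreducible characters of `G`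
    (∀ χ ∈ Irr G, 0 ≤ meromorphicOrderAt (A.L χ) 1) ∧
    -- no poles over the intermediate fields
    (∀ (H : Subgroup G) (ψ : H →* ℂˣ), 0 ≤ meromorphicOrderAt (A.Lin H ψ) 1) ∧
    -- nonvanishing unless `χ` has degree at most two and is trivial on `G''`
    (∀ χ ∈ Irr G, (¬ (∃ d : ℕ, χ 1 = d ∧ d ≤ 2) ∨ ∃ g ∈ derivedSeries G 2, χ g ≠ χ 1) →
      meromorphicOrderAt (A.L χ) 1 = 0) ∧
    -- the order over `F^H` is the order over its intersection with `F^{G''}`
    (∀ H : Subgroup G, meromorphicOrderAt (A.Lin H 1) 1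
      = meromorphicOrderAt (A.Lin (H ⊔ derivedSeries G 2) 1) 1) ∧
    -- perfect groups
    (derivedSeries G 1 = ⊤ →
      (∀ χ ∈ Irr G, χ ≠ 1 → meromorphicOrderAt (A.L χ) 1 = 0) ∧
      ∀ H : Subgroup G, meromorphicOrderAt (A.Lin H 1) 1 = ((r : ℤ) : WithTop ℤ)) := by
  classical
  have : Fintype G := Fintype.ofFinite G
  set θ : G → ℂ := theta A.ord with hθdef
  have h1 : θ 1 = (r : ℂ) := by
    have := A.theta_one h
    exact_mod_cast this
  have hH : IsHeilbronn θ := A.solv.isHeilbronn h1 hr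
  have hV : Virt θ := theta_virt A.ord
  have hc := EV.Ev.const A.ev hH hV hr h1
  -- the orders
  have hord : ∀ χ ∈ Irr G, ∃ n : ℕ, pr θ χ = n ∧
      meromorphicOrderAt (A.L χ) 1 = ((n : ℤ) : WithTop ℤ) ∧
      (n ≠ 0 → ∀ g, ∀ k ∈ derivedSeries G 2, χ (g * k) = χ g) := by
    intro χ hχ
    obtain ⟨n, hn, hn2⟩ := EV.pos_of_quot hH (derivedSeries G 2) hc EV.an_derived hχ
    exact ⟨n, hn, A.ord_of_pr hχ hn, fun h0 => (hn2 h0).2⟩
  have hpart1 : ∀ χ ∈ Irr G, 0 ≤ meromorphicOrderAt (A.L χ) 1 := by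
    intro χ hχ
    obtain ⟨n, -, hn, -⟩ := hord χ hχ
    rw [hn]
    exact_mod_cast Nat.zero_le n
  have hpart3 : ∀ χ ∈ Irr G, (¬ (∃ d : ℕ, χ 1 = d ∧ d ≤ 2) ∨
      ∃ g ∈ derivedSeries G 2, χ g ≠ χ 1) → meromorphicOrderAt (A.L χ) 1 = 0 := by
    intro χ hχ hor
    obtain ⟨n, hpr, hn, hn2⟩ := hord χ hχ
    have hn0 : n = 0 := by
      by_contra hne
      rcases hor with h2 | ⟨g, hg, hg1⟩
      · apply h2
        choose! m hm _ _ using hord
        choose! d hd hd1 using fun χ (hχ : χ ∈ Irr G) => irr_deg_pos hχ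
        refine ⟨d χ, hd1 χ hχ, ?_⟩
        have hsum : ∑ χ ∈ irrF G, m χ * d χ = r := by
          have h3 := hV.expand 1
          rw [h1] at h3
          have h4 : ((∑ χ ∈ irrF G, m χ * d χ : ℕ) : ℂ) = ((r : ℕ) : ℂ) := by
            rw [h3]
            push_cast
            exact Finset.sum_congr rfl fun χ hχ => by
              rw [hm χ (mem_irrF.mp hχ), hd1 χ (mem_irrF.mp hχ)]
          exact_mod_cast h4
        have hle : m χ * d χ ≤ r := by
          rw [← hsum]
          exact Finset.single_le_sum (f := fun χ => m χ * d χ) (fun _ _ => Nat.zero_le _)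
            (mem_irrF.mpr hχ)
        have hmn : m χ = n := by
          have h5 := hm χ hχ
          rw [hpr] at h5
          exact_mod_cast h5.symm
        rw [hmn] at hle
        have h6 : d χ ≤ n * d χ := Nat.le_mul_of_pos_left _ (Nat.pos_of_ne_zero hne)
        omega
      · apply hg1
        have h3 := hn2 hne 1 g hg
        rwa [one_mul] at h3
    rw [hn, hn0]
    rfl
  have hpart4 : ∀ H : Subgroup G, meromorphicOrderAt (A.Lin H 1) 1
      = meromorphicOrderAt (A.Lin (H ⊔ derivedSeries G 2) 1) 1 := by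
    intro H
    obtain ⟨n, hn⟩ := hH.mult H 1
    have e1 : meromorphicOrderAt (A.Lin H 1) 1 = ((n : ℤ) : WithTop ℤ) :=
      A.eq_of_mult (by rw [Int.cast_natCast]; exact hn)
    have h2 : ∑ᶠ h : H, θ h = (n : ℂ) * (Nat.card H : ℂ) := by
      rw [← hn]
      refine finsum_congr fun x => ?_
      simp
    have h3 := mult_sup (derivedSeries G 2) hc H h2
    have e2 : meromorphicOrderAt (A.Lin (H ⊔ derivedSeries G 2) 1) 1 = ((n : ℤ) : WithTop ℤ) := by
      apply A.eq_of_mult
      rw [Int.cast_natCast, ← h3]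
      refine finsum_congr fun x => ?_
      change (theta A.ord : G → ℂ) x * (((1 : ℂˣ)⁻¹ : ℂˣ) : ℂ) = _
      rw [inv_one, Units.val_one, mul_one]
    rw [e1, e2]
  refine ⟨hpart1, ?_, hpart3, hpart4, ?_⟩
  · intro H ψ
    obtain ⟨n, hn⟩ := hH.mult H ψ
    have e1 : meromorphicOrderAt (A.Lin H ψ) 1 = ((n : ℤ) : WithTop ℤ) :=
      A.eq_of_mult (by rw [Int.cast_natCast]; exact hn)
    rw [e1]
    exact_mod_cast Nat.zero_le n
  · intro hperf
    have htop : derivedSeries G 2 = ⊤ := by
      have h2 := hperf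
      rw [derivedSeries_succ, derivedSeries_zero] at h2
      rw [derivedSeries_succ, hperf]
      exact h2
    refine ⟨?_, ?_⟩
    · intro χ hχ hχ1
      apply hpart3 χ hχ
      right
      by_contra hcon
      push Not at hcon
      apply hχ1
      have h1I : (fun _ : G => (1 : ℂ)) ∈ Irr G := by
        have h2 := Pool.Agent.TH820.lin_irr (1 : G →* ℂˣ)
        have h3 : (fun g : G => (((1 : G →* ℂˣ) g : ℂˣ) : ℂ)) = fun _ => 1 := by
          funext g
          simp
        rwa [h3] at h2
      by_contra hne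
      have h4 := pr_ne hχ h1I (fun h5 => hne (by rw [h5]; rfl))
      obtain ⟨d, hd, hd1⟩ := irr_deg_pos hχ
      rw [pr_eq] at h4
      have h5 : ∀ g : G, χ g * 1 = d := by
        intro g
        rw [hcon g (by rw [htop]; exact Subgroup.mem_top g), hd1, mul_one]
      rw [Finset.sum_congr rfl fun g _ => h5 g, Finset.sum_const, Finset.card_univ, nsmul_eq_mul,
        ← Nat.card_eq_fintype_card, inv_mul_cancel_left₀ card_ne] at h4
      have : d = 0 := by exact_mod_cast h4
      omega
    · intro H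
      have e1 := hpart4 H
      have e2 := hpart4 ⊥
      rw [htop, sup_top_eq] at e1 e2
      rw [e1, ← e2, h]

end Pool.Agent.Results.MP_bf9450_nt.SymplecticRootNumbers
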